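import Pool.Agent.R99.Mem.PI

namespace Pool.Agent.Results.MP_def589_lc.PrefixIndependent

open Pool.Agent.R99.Mem

/-- `W` is prefix-independent: an infinite sequence lies in `W` if and only if the sequence
obtained by deleting its first `k` entries does, for every `k`. -/
def IsPrefixIndependent {C : Type} (W : Set (ℕ → C)) : Prop :=
  ∀ (f : ℕ → C) (k : ℕ), f ∈ W ↔ (fun n => f (n + k)) ∈ W

/-- Q1: yes. -/
theorem result : ∃ (C : Type) (_ : Finite C) (_ : Nonempty C) (W : Set (ℕ → C)),
    IsPrefixIndependent W ∧ GenMem W < ⊤ ∧ ChrMem W = ⊤ :=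
  ⟨Option Col, inferInstance, ⟨none⟩, W₁, W₁_shift, genMem_lt (by norm_num) W₁_gen,
    chrMem_eq W₁_chr⟩

end Pool.Agent.Results.MP_def589_lc.PrefixIndependent
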